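import Pool.Agent.Helper24.TF.StF

/-!
# Project TF (MP_6090f9_nt): module F2 (good fibres of a separable family)
-/

set_option autoImplicit false

namespace Pool.Agent.Helper43.TF

open NumberField IsDedekindDomain Polynomial Filter Topology
open Pool.Agent.Helper95.TT Pool.Agent.Helper24.TF

/-- clearing denominators in a Bezout relation of a separable polynomial -/
theorem bezout_F2 (A : Type) [CommRing A] [IsDomain A] (f : A[X])
    (hf : (f.map (algebraMap A (FractionRing A))).Separable) :
    ∃ (a b : A[X]) (c : A), c ≠ 0 ∧ a * f + b * derivative f = C c := by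
  obtain ⟨α, β, hαβ⟩ := hf
  obtain ⟨b₁, hm₁, hb₁⟩ := IsLocalization.integerNormalization_spec (nonZeroDivisors A) α
  obtain ⟨b₂, hm₂, hb₂⟩ := IsLocalization.integerNormalization_spec (nonZeroDivisors A) β
  have h1 : b₁ ≠ 0 := nonZeroDivisors.ne_zero hm₁
  have h2 : b₂ ≠ 0 := nonZeroDivisors.ne_zero hm₂
  refine ⟨C (b₂ : A) * IsLocalization.integerNormalization (nonZeroDivisors A) α,
    C (b₁ : A) * IsLocalization.integerNormalization (nonZeroDivisors A) β,
    (b₁ : A) * b₂, mul_ne_zero h1 h2, ?_⟩
  apply Polynomial.map_injective (algebraMap A (FractionRing A)) (IsFractionRing.injective _ _)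
  rw [Polynomial.derivative_map] at hαβ
  simp only [Polynomial.map_add, Polynomial.map_mul, Polynomial.map_C, hb₁, hb₂]
  have e1 : ((b₁ : A) • α) = C (algebraMap A (FractionRing A) b₁) * α := by
    rw [← Polynomial.smul_eq_C_mul, algebraMap_smul]
  have e2 : ((b₂ : A) • β) = C (algebraMap A (FractionRing A) b₂) * β := by
    rw [← Polynomial.smul_eq_C_mul, algebraMap_smul]
  rw [e1, e2, map_mul, map_mul]
  linear_combination (C (algebraMap A (FractionRing A) b₁) *
    C (algebraMap A (FractionRing A) b₂)) * hαβ

theorem hF2 : StF2 := by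
  intro k _ _ m f hf hsep
  obtain ⟨a, b, c, hc, habc⟩ := bezout_F2 (Py k m) f hsep
  refine ⟨c * f.leadingCoeff, mul_ne_zero hc (Polynomial.leadingCoeff_ne_zero.2 hf), ?_⟩
  intro v y hP
  rw [map_mul] at hP
  have hc' : val v y c ≠ 0 := left_ne_zero_of_mul hP
  have hl' : val v y f.leadingCoeff ≠ 0 := right_ne_zero_of_mul hP
  refine ⟨Polynomial.natDegree_map_of_leadingCoeff_ne_zero _ hl', ?_⟩
  have hfield : IsField (Kv v) :=
    (Ideal.Quotient.maximal_ideal_iff_isField_quotient _).1 v.isMaximal
  obtain ⟨u, hu⟩ := hfield.mul_inv_cancel hc'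
  have h1 : (a.map (val v y)) * (f.map (val v y)) +
      (b.map (val v y)) * derivative (f.map (val v y)) = C (val v y c) := by
    have h2 := congrArg (Polynomial.map (val v y)) habc
    simpa [Polynomial.derivative_map] using h2
  have hs : (fib f v y).Separable := by
    refine ⟨C u * a.map (val v y), C u * b.map (val v y), ?_⟩
    have h3 : (C u : (Kv v)[X]) * C (val v y c) = 1 := by
      rw [← C_mul, mul_comm, hu, C_1]
    calc C u * a.map (val v y) * fib f v y + C u * b.map (val v y) * derivative (fib f v y)
        = C u * ((a.map (val v y)) * (f.map (val v y)) +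
          (b.map (val v y)) * derivative (f.map (val v y))) := by
          simp only [fib]
          ring
      _ = 1 := by rw [h1, h3]
  exact hs.squarefree

end Pool.Agent.Helper43.TF
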